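import Pool.Agent.W_be22fd_h27.Block

/-!
# The base block: two wires, one crossing
-/

namespace Pool.Agent.W_be22fd_h37

open Pool.Agent.W_be22fd_h27

/-- heights of the two wires of the base block -/
def hB : Bool → Wire Empty 0 → ℤ
  | _, .inn w => w.elim
  | false, .L => 1
  | false, .C => 0
  | true, .L => 0
  | true, .C => 1
  | _, .S _ => 5
  | _, .R _ => 6

theorem wire_cases (p : Wire Empty 0) : p = .L ∨ p = .C := by
  rcases p with w | _ | _ | m | m
  · exact w.elim
  · exact Or.inl rfl
  · exact Or.inr rfl
  · exact m.elim0
  · exact m.elim0

/-- The block without inner wires and without outer syncs: `L` and `C` cross once. -/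
def base : Block where
  W := Empty
  slope := fun w => w.elim
  A := 0
  A_nonneg := le_refl _
  slope_le := fun w => w.elim
  ns := 0
  τ := Bool
  α := ℤ
  h := hB
  ini := false
  fin := true
  ini_le := by intro t; cases t <;> decide
  le_fin := by intro t; cases t <;> decide
  inj := by
    intro t p q
    rcases wire_cases p with rfl | rfl <;> rcases wire_cases q with rfl | rfl <;>
      cases t <;> simp [hB]
  h_ini := by
    intro p q
    rcases wire_cases p with rfl | rfl <;> rcases wire_cases q with rfl | rfl <;>
      simp [hB, rk]
  h_fin := by
    intro p q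
    rcases wire_cases p with rfl | rfl <;> rcases wire_cases q with rfl | rfl <;>
      simp [hB, rk]
  once := by
    intro p q t t'
    rcases wire_cases p with rfl | rfl <;> rcases wire_cases q with rfl | rfl <;>
      cases t <;> cases t' <;> simp [hB, rk]
  same := by
    intro p q t t'
    rcases wire_cases p with rfl | rfl <;> rcases wire_cases q with rfl | rfl <;>
      cases t <;> cases t' <;> simp [hB, rk]
  S_order := fun m => m.elim0
  R_order := fun m => m.elim0
  key := fun m => m.elim0
  key_lt := fun m => m.elim0
  key_mono := fun m => m.elim0
  key_core := fun m => m.elim0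
  key0 := fun m => m.elim0
  key1 := fun m => m.elim0
  key1' := fun m => m.elim0
  key2 := fun m => m.elim0
  key2' := fun m => m.elim0
  key3 := fun m => m.elim0
  T := fun _ => True

instance : IsEmpty base.W := inferInstanceAs (IsEmpty Empty)

theorem base_A : base.A = 0 := rfl
theorem base_ns : base.ns = 0 := rfl

end Pool.Agent.W_be22fd_h37
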