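import Pool.Agent.W_be22fd_h27.GridDef
import Pool.Agent.W_be22fd_h39.Final2

/-!
# Size of the grid: Lemma W (helper39's shape)
-/

namespace Pool.Agent.W_be22fd_h37

open Pool.Agent.W_be22fd_h27 Pool.Agent.W_be22fd_h39

/-- number of wires over a family of wires with slopes `s` after the grid steps `L` -/
def wtS {W : Type} [Fintype W] (s : W → ℤ) (L : List ℕ) : ℕ := ∑ u : W, fac (s u).natAbs L

/-- number of inner wires of the block after the grid steps `L` -/
def wt (B : Block) (L : List ℕ) : ℕ := wtS B.slope L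

theorem fac_mono {a b : ℕ} (hab : a ≤ b) (L : List ℕ) : fac a L ≤ fac b L := by
  induction L with
  | nil => simp [fac]
  | cons X L ih =>
    simp only [fac]
    exact Nat.mul_le_mul (Nat.succ_le_succ (Nat.mul_le_mul_right _ (by omega))) ih

theorem one_le_fac (a : ℕ) (L : List ℕ) : 1 ≤ fac a L := by
  induction L with
  | nil => simp [fac]
  | cons X L ih =>
    simp only [fac]
    exact Nat.one_le_iff_ne_zero.mpr (Nat.mul_ne_zero (by omega) (by omega))

/-- kinds as a sum type -/
def mkEquiv (ns : ℕ) : MK ns ≃ (Unit ⊕ Unit) ⊕ (Fin ns ⊕ Fin ns) where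
  toFun
    | .c => .inl (.inl ())
    | .l => .inl (.inr ())
    | .Rp m => .inr (.inl m)
    | .Sp m => .inr (.inr m)
  invFun
    | .inl (.inl _) => .c
    | .inl (.inr _) => .l
    | .inr (.inl m) => .Rp m
    | .inr (.inr m) => .Sp m
  left_inv := by rintro (_ | _ | _ | _) <;> rfl
  right_inv := by rintro ((_ | _) | (_ | _)) <;> rfl

instance (ns : ℕ) : Fintype (MK ns) := Fintype.ofEquiv _ (mkEquiv ns).symm

theorem card_MK (ns : ℕ) : Fintype.card (MK ns) = 2 * ns + 2 := by
  rw [Fintype.card_congr (mkEquiv ns)]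
  simp
  ring

/-- inner wires of the grid as a sum type -/
noncomputable def gwEquiv (B : Block) (X : ℕ) :
    GW B X ≃ (Σ u : B.W, Finset.Icc (-(|B.slope u| * X)) ((|B.slope u| + 1) * X)) ⊕
      (MK B.ns × Fin (X * X)) where
  toFun
    | .old u o ho => .inl ⟨u, ⟨o, ho⟩⟩
    | .mv κ k => .inr (κ, k)
  invFun
    | .inl ⟨u, o⟩ => .old u o.1 o.2
    | .inr (κ, k) => .mv κ k
  left_inv := by rintro (_ | _) <;> rfl
  right_inv := by rintro (⟨_, _, _⟩ | ⟨_, _⟩) <;> rfl

noncomputable instance (B : Block) (X : ℕ) : Fintype (GW B X) := Fintype.ofEquiv _ (gwEquiv B X).symm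

theorem card_offs (s : ℤ) (X : ℕ) :
    (Finset.Icc (-(|s| * X)) ((|s| + 1) * X)).card = (2 * s.natAbs + 1) * X + 1 := by
  rw [Int.card_Icc]
  have h : (|s| + 1) * (X : ℤ) + 1 - -(|s| * X) = (((2 * s.natAbs + 1) * X + 1 : ℕ) : ℤ) := by
    push_cast
    ring
  rw [h, Int.toNat_natCast]

theorem slp_abs {ns : ℕ} (A : ℤ) (hA : 0 ≤ A) (K k : ℕ) (hk : k < K) (κ : MK ns) :
    |κ.slp A K k| ≤ A + K + 1 := by
  cases κ <;> simp only [MK.slp] <;> rw [abs_le] <;> constructor <;> omega

/-- **Lemma W.** -/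
theorem wt_grid (B : Block) (X : ℕ) (L : List ℕ) [inst : Fintype (GW B X)] :
    @wtS (GW B X) inst (slopeG B X) L ≤
      wt B (X :: L) + X * X * (2 * B.ns + 2) * fac (B.A.natAbs + X * X + 1) L := by
  have hinst : inst = inferInstanceAs (Fintype (GW B X)) := Subsingleton.elim _ _
  unfold wtS
  rw [Fintype.sum_equiv (gwEquiv B X) (fun p => fac (slopeG B X p).natAbs L)
    (Sum.elim (fun v => fac (B.slope v.1).natAbs L)
      (fun v => fac (v.1.slp B.A (X * X) v.2).natAbs L)) (by rintro (_ | _) <;> rfl)]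
  rw [Fintype.sum_sum_type]
  apply Nat.add_le_add
  · simp only [Sum.elim_inl]
    rw [Fintype.sum_sigma]
    apply Finset.sum_le_sum
    intro u _
    simp only [Finset.sum_const, Finset.card_univ, Fintype.card_coe, smul_eq_mul]
    rw [card_offs]
    exact le_of_eq rfl
  · simp only [Sum.elim_inr]
    have hb : ∀ v : MK B.ns × Fin (X * X),
        fac (v.1.slp B.A (X * X) v.2).natAbs L ≤ fac (B.A.natAbs + X * X + 1) L := by
      intro v
      apply fac_mono
      have h1 := slp_abs B.A B.A_nonneg (X * X) v.2 v.2.isLt v.1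
      have h2 := B.A_nonneg
      zify
      rw [abs_of_nonneg h2]
      push_cast at h1 ⊢
      exact h1
    refine (Finset.sum_le_sum (fun v _ => hb v)).trans ?_
    rw [Finset.sum_const, Finset.card_univ, Fintype.card_prod, card_MK, Fintype.card_fin,
      smul_eq_mul]
    apply Nat.mul_le_mul_right
    rw [Nat.mul_comm]

/-- what the size of the iterated grid uses from the grid -/
structure GridLike (g : Block → ℕ → Block) : Prop where
  ns : ∀ B X, (g B X).ns = X * X + 1
  A : ∀ B X, (g B X).A = B.A + (X * X : ℕ) + 1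
  wt : ∀ B X L, wt (g B X) L ≤
    wt B (X :: L) + X * X * (2 * B.ns + 2) * fac (B.A.natAbs + X * X + 1) L

theorem GridLike.natAbs {g : Block → ℕ → Block} (hg : GridLike g) (B : Block) (X : ℕ) :
    (g B X).A.natAbs = B.A.natAbs + X * X + 1 := by
  rw [hg.A]
  have h2 := B.A_nonneg
  zify
  rw [abs_of_nonneg h2, abs_of_nonneg (by positivity)]

/-- inner wires of the iterated grid -/
theorem GridLike.wt_foldl {g : Block → ℕ → Block} (hg : GridLike g) (L : List ℕ) :
    ∀ B : Block, W_be22fd_h37.wt (L.foldl g B) [] ≤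
      W_be22fd_h37.wt B L + sz B.A.natAbs B.ns L := by
  induction L with
  | nil => intro B; simp
  | cons X L ih =>
    intro B
    rw [List.foldl_cons]
    refine (ih (g B X)).trans ?_
    rw [hg.natAbs, hg.ns]
    have h1 := hg.wt B X L
    simp only [sz]
    omega

theorem GridLike.ns_foldl {g : Block → ℕ → Block} (hg : GridLike g) (L : List ℕ) :
    ∀ B : Block, (L.foldl g B).ns = nsL B.ns L := by
  induction L with
  | nil => intro B; rfl
  | cons X L ih =>
    intro B
    rw [List.foldl_cons, ih, hg.ns]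
    rfl

theorem wt_nil (B : Block) : wt B [] = Fintype.card B.W := by
  simp [wt, wtS, fac]

/-- wires as a sum type -/
def wireEquiv (W : Type) (ns : ℕ) : Wire W ns ≃ (W ⊕ (Unit ⊕ Unit)) ⊕ (Fin ns ⊕ Fin ns) where
  toFun
    | .inn w => .inl (.inl w)
    | .L => .inl (.inr (.inl ()))
    | .C => .inl (.inr (.inr ()))
    | .S m => .inr (.inl m)
    | .R m => .inr (.inr m)
  invFun
    | .inl (.inl w) => .inn w
    | .inl (.inr (.inl _)) => .L
    | .inl (.inr (.inr _)) => .C
    | .inr (.inl m) => .S m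
    | .inr (.inr m) => .R m
  left_inv := by rintro (_ | _ | _ | _ | _) <;> rfl
  right_inv := by rintro ((_ | (_ | _)) | (_ | _)) <;> rfl

theorem card_wire (W : Type) (ns : ℕ) [Fintype W] [Fintype (Wire W ns)] :
    Fintype.card (Wire W ns) = Fintype.card W + 2 * ns + 2 := by
  rw [Fintype.card_congr (wireEquiv W ns)]
  simp
  ring

/-- number of wires of the iterated grid over a block without inner wires -/
theorem GridLike.card {g : Block → ℕ → Block} (hg : GridLike g) (B : Block) [IsEmpty B.W]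
    (hA : B.A = 0) (hns : B.ns = 0) (L : List ℕ)
    [Fintype (Wire (L.foldl g B).W (L.foldl g B).ns)] :
    Fintype.card (Wire (L.foldl g B).W (L.foldl g B).ns) ≤ sz 0 0 L + 2 * nsL 0 L + 2 := by
  rw [card_wire]
  have h1 := hg.wt_foldl L B
  rw [wt_nil, hA, hns] at h1
  have h2 : W_be22fd_h37.wt B L = 0 := by simp [W_be22fd_h37.wt, wtS]
  have h3 := hg.ns_foldl L B
  rw [hns] at h3
  rw [h3]
  rw [h2] at h1
  simp only [Int.natAbs_zero] at h1
  omega

end Pool.Agent.W_be22fd_h37
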