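import Pool.Agent.W_be22fd_h37.Size
import Pool.Agent.W_be22fd_h37.Base
import Pool.Agent.W_be22fd_h27.Grid

/-!
# Size of the iterated grid over the base block
-/

namespace Pool.Agent.W_be22fd_h37

open Pool.Agent.W_be22fd_h27 Pool.Agent.W_be22fd_h39

theorem gridLike : GridLike grid where
  ns := fun _ _ => rfl
  A := fun _ _ => rfl
  wt := fun B X L => @wt_grid B X L (GW.fin B X)

theorem grid_ns (L : List ℕ) : (L.foldl grid base).ns = nsL 0 L := gridLike.ns_foldl L base

theorem grid_card (L : List ℕ) [Fintype (Wire (L.foldl grid base).W (L.foldl grid base).ns)] :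
    Fintype.card (Wire (L.foldl grid base).W (L.foldl grid base).ns) ≤
      sz 0 0 L + 2 * nsL 0 L + 2 :=
  gridLike.card base rfl rfl L

theorem grid_card_W (L : List ℕ) : Fintype.card (L.foldl grid base).W ≤ sz 0 0 L := by
  have h1 := gridLike.wt_foldl L base
  rw [wt_nil] at h1
  have h2 : wt base L = 0 := by simp [wt, wtS]
  have h3 : base.A.natAbs = 0 := rfl
  have h4 : base.ns = 0 := rfl
  rw [h2, h3, h4] at h1
  omega

end Pool.Agent.W_be22fd_h37
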